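import Pool.Agent.W619.Y.Stm

/-! Project PG: pseudo-effectivity and numerical dimension under finite extensions. -/

set_option autoImplicit false
set_option linter.overlappingInstances false
set_option linter.unusedSectionVars false

universe u v

open FF IntermediateField Pool.Agent.W619.PQ Pool.Agent.W619.PL Pool.Agent.W619.TW
  Pool.Agent.W603.LV

namespace Pool.Agent.W636.PG

open Pool.Agent.W619.Y

/-- A transcendence basis indexed by `Fin n`. -/
theorem exists_basis (k : Type v) (K : Type u) [Field k] [Field K] [Algebra k K] (n : ℕ)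
    (hn : Algebra.trdeg k K = n) : ∃ y : Fin n → K, IsTranscendenceBasis k y := by
  obtain ⟨ι, x, hx⟩ := exists_isTranscendenceBasis' k K
  have h1 : Cardinal.mk ι = n := by rw [hx.cardinalMk_eq_trdeg, hn]
  obtain ⟨e⟩ : Nonempty (Fin n ≃ ι) := by
    have h2 : Finite ι := by
      rw [← Cardinal.lt_aleph0_iff_finite, h1]
      exact Cardinal.natCast_lt_aleph0
    have h3 : Nat.card ι = n := by
      rw [Nat.card, h1, Cardinal.toNat_natCast]
    exact ⟨(Finite.equivFinOfCardEq h3).symm⟩
  exact ⟨x ∘ e, (isTranscendenceBasis_equiv e).2 hx⟩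

/-- Dual derivations. -/
theorem exists_duals (k : Type v) (K : Type u) [Field k] [CharZero k] [Field K] [Algebra k K]
    (n : ℕ) (y : Fin n → K) (hy : IsTranscendenceBasis k y) :
    ∃ E : Fin n → Derivation k K K, ∀ i j, E i (y j) = if i = j then 1 else 0 := by
  choose E hE using fun j => exists_dual (k := k) (K := K) y hy j
  refine ⟨E, fun i j => ?_⟩
  rw [hE i j]
  by_cases h : i = j
  · rw [if_pos h, if_pos h.symm]
  · rw [if_neg h, if_neg (Ne.symm h)]

/-- A form is determined by its value at a dual basis. -/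
theorem form_eq (k : Type v) (K : Type u) [Field k] [CharZero k] [Field K] [Algebra k K]
    (n m : ℕ) (y : Fin n → K) (hy : IsTranscendenceBasis k y) (E : Fin n → Derivation k K K)
    (hE : ∀ i j, E i (y j) = if i = j then 1 else 0)
    (ω : (Fin n → Derivation k K K) → K) (hω : IsPluriForm k K n m ω)
    (D : Fin n → Derivation k K K) :
    ω D = (Matrix.of fun i j => D i (y j)).det ^ m * ω E := by
  have h1 : D = fun i => ∑ j, (Matrix.of fun i j => D i (y j)) i j • E j := by
    funext i
    have h2 : ∀ f, (D i - ∑ j, D i (y j) • E j) f = 0 := by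
      apply der_zero _ y hy
      intro l
      rw [Derivation.sub_apply]
      have h3 : (∑ j, D i (y j) • E j) (y l) = ∑ j, D i (y j) * E j (y l) := by
        rw [← Derivation.coeFnAddMonoidHom_apply, map_sum, Finset.sum_apply]
        rfl
      rw [h3]
      simp only [hE, mul_ite, mul_one, mul_zero, Finset.sum_ite_eq', Finset.mem_univ, if_true,
        sub_self]
    ext f
    have h4 := h2 f
    rw [Derivation.sub_apply, sub_eq_zero] at h4
    exact h4
  conv_lhs => rw [h1]
  exact hω _ E

theorem main (h : S_PULL.{u, v}) : S_TRANS.{u, v} := by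
  intro k K L _ _ _ _ _ _ _ _ _ n hn hFD Bd
  obtain ⟨y, hy⟩ := exists_basis k K n hn
  obtain ⟨E, hE⟩ := exists_duals k K n y hy
  have hyL : IsTranscendenceBasis k (algebraMap K L ∘ y) := hy.algebraMap_comp
  obtain ⟨E', hE'⟩ := exists_duals k L n _ hyL
  let Φ : ℕ → ((Fin n → Derivation k K K) → K) → (Fin n → Derivation k L L) → L :=
    fun m ω D => (Matrix.of fun a b => D a (algebraMap K L (y b))).det ^ m *
      algebraMap K L (ω E)
  have hS : ∀ S : Finset K, ∃ S' : Finset L, ∀ m j ω, IsSec k K n Bd S m j ω →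
      IsSec k L n (BdUp Bd) S' m j (Φ m ω) := fun S =>
    ⟨_, fun m j ω hω => h k K L n hn hFD Bd S m j y E hy hE ω hω⟩
  have hdet : (Matrix.of fun a b => E' a (algebraMap K L (y b))).det = 1 := by
    have h1 : (Matrix.of fun a b => E' a (algebraMap K L (y b))) = 1 := by
      ext a b
      rw [Matrix.of_apply, Matrix.one_apply]
      exact hE' a b
    rw [h1, Matrix.det_one]
  have hΦ : ∀ m ω, Φ m ω E' = algebraMap K L (ω E) := by
    intro m ω
    change (Matrix.of fun a b => E' a (algebraMap K L (y b))).det ^ m *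
      algebraMap K L (ω E) = _
    rw [hdet, one_pow, one_mul]
  have hind : ∀ (S : Finset K) (S' : Finset L) (m N : ℕ),
      (∀ ω, IsSec k K n Bd S m 1 ω → IsSec k L n (BdUp Bd) S' m 1 (Φ m ω)) →
      HasIndep k K n N (IsSec k K n Bd S m 1) →
      HasIndep k L n N (IsSec k L n (BdUp Bd) S' m 1) := by
    intro S S' m N hSS ⟨ω, hli, hω⟩
    refine ⟨fun l => Φ m (ω l), ?_, fun l => hSS _ (hω l)⟩
    rw [Fintype.linearIndependent_iff] at hli ⊢
    intro c hc
    apply hli
    have h1 : ∑ l, c l • ω l E = 0 := by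
      have h2 := congrFun hc E'
      rw [Finset.sum_apply] at h2
      simp only [Pi.smul_apply, Pi.zero_apply, hΦ] at h2
      have h3 : algebraMap K L (∑ l, c l • ω l E) = 0 := by
        rw [← h2, map_sum]
        refine Finset.sum_congr rfl fun l _ => ?_
        rw [Algebra.smul_def, Algebra.smul_def, map_mul, ← IsScalarTower.algebraMap_apply k K L]
      exact (map_eq_zero _).1 h3
    funext D
    rw [Finset.sum_apply]
    simp only [Pi.smul_apply, Pi.zero_apply]
    have h4 : ∀ l, c l • ω l D = (Matrix.of fun i j => D i (y j)).det ^ m * (c l • ω l E) := by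
      intro l
      rw [form_eq k K n m y hy E hE (ω l) (hω l).1 D, mul_smul_comm]
    rw [Finset.sum_congr rfl fun l _ => h4 l, ← Finset.mul_sum, h1, mul_zero]
  refine ⟨?_, ?_, ?_⟩
  · rintro ⟨S, hSs⟩
    obtain ⟨S', hS'⟩ := hS S
    refine ⟨S', fun N => ?_⟩
    obtain ⟨j, hj, ω, hω, D, hD⟩ := hSs N
    refine ⟨j, hj, Φ (j * N) ω, hS' _ _ _ hω, E', ?_⟩
    rw [hΦ]
    intro h0
    apply hD
    rw [form_eq k K n (j * N) y hy E hE ω hω.1 D, (map_eq_zero _).1 h0, mul_zero]
  · intro hneg S
    obtain ⟨S', hS'⟩ := hS S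
    obtain ⟨m0, hm0⟩ := hneg S'
    refine ⟨m0, fun m hm hI => hm0 m hm (hind S S' m 1 (fun ω hω => hS' _ _ _ hω) hI)⟩
  · intro g hle S
    obtain ⟨S', hS'⟩ := hS S
    obtain ⟨C, hC⟩ := hle S'
    exact ⟨C, fun m N hm hI => hC m N hm (hind S S' m N (fun ω hω => hS' _ _ _ hω) hI)⟩

end Pool.Agent.W636.PG
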