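import Pool.Agent.W619.Y.Stm10
import Pool.Agent.W318.PG.URAT
import Pool.Agent.W619.X.A1

/-! If one of the curves is rational, with at most one boundary point, then `Y × C 1 × ... × C n` is
`A¹`-uniruled. -/

set_option autoImplicit false
set_option linter.overlappingInstances false
set_option linter.unusedSectionVars false

universe u v

open Polynomial FF IntermediateField

namespace Pool.Agent.W636.PG.NEGA

open Pool.Agent.W603.LV Pool.Agent.W619.PQ Pool.Agent.W619.PL Pool.Agent.W619.TW
  Pool.Agent.W619.X Pool.Agent.W619.Y Pool.Agent.W318.PG.URAT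

section

variable {k L : Type*} [Field k] [Field L] [Algebra k L]

theorem factor' {d n : ℕ} (M : IntermediateField k L) (F : Fin n → IntermediateField k L)
    [∀ i, IsFF k (F i)] [Algebra.EssFiniteType k M] (hd : Algebra.trdeg k M = d)
    (hn : Algebra.trdeg k L = (d + n : ℕ)) (hsup : M ⊔ (⨆ i, F i) = ⊤) (i0 : Fin n) (t : F i0)
    (ht : k⟮t⟯ = ⊤) : ∃ M' : IntermediateField k L, Algebra.EssFiniteType k M' ∧
      Algebra.trdeg k M' + 1 = (d + n : ℕ) ∧ Transcendental M' (t : L) ∧ M'⟮(t : L)⟯ = ⊤ ∧
      ∀ j, j ≠ i0 → F j ≤ M' := by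
  classical
  let ι := {j : Fin n // j ≠ i0}
  let M' : IntermediateField k L := M ⊔ ⨆ j : ι, F j.1
  have hle0 : M ≤ M' := le_sup_left
  have hle : ∀ j, j ≠ i0 → F j ≤ M' := fun j hj =>
    le_trans (le_iSup (fun j : ι => F j.1) ⟨j, hj⟩) le_sup_right
  have htop : M'⟮(t : L)⟯ = ⊤ := by
    have h1 : (⊤ : IntermediateField k L) ≤ M'⟮(t : L)⟯.restrictScalars k := by
      rw [← hsup]
      refine sup_le ?_ (iSup_le fun j z hz => ?_)
      · intro z hz
        rw [mem_restrictScalars]
        exact M'⟮(t : L)⟯.algebraMap_mem ⟨z, hle0 hz⟩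
      rw [mem_restrictScalars]
      by_cases hj : j = i0
      · subst hj
        have h2 : (⟨z, hz⟩ : F j) ∈ k⟮t⟯ := by rw [ht]; trivial
        have h3 : k⟮t⟯ ≤ (M'⟮(t : L)⟯.restrictScalars k).comap (F j).val := by
          rw [adjoin_simple_le_iff]
          exact mem_adjoin_simple_self M' _
        exact h3 h2
      · exact M'⟮(t : L)⟯.algebraMap_mem ⟨z, hle j hj hz⟩
    rw [eq_top_iff]
    intro z _
    exact h1 (by trivial : z ∈ (⊤ : IntermediateField k L))
  have htt : Transcendental M' (t : L) := by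
    intro halg
    choose x hx using fun i => IsFF.exists_transcendental (k := k) (K := F i)
    obtain ⟨s, hs⟩ := exists_isTranscendenceBasis k M
    let T : Set L := (Subtype.val '' s) ∪ Set.range fun j : ι => (x j.1 : L)
    let S : IntermediateField k L := adjoin k T
    let A : IntermediateField S L := algebraicClosure S L
    have hMA : ∀ z ∈ M', z ∈ A := by
      have h0 : M' ≤ A.restrictScalars k := by
        refine sup_le ?_ (iSup_le fun j z hz => ?_)
        · intro z hz
          rw [mem_restrictScalars, mem_algebraicClosure_iff]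
          exact alg_of_basis M s hs S
            (fun y hy => subset_adjoin k _ (Or.inl ⟨y, hy, rfl⟩)) ⟨z, hz⟩
        · rw [mem_restrictScalars, mem_algebraicClosure_iff]
          exact alg_of_mem (F j.1) (hx j.1) S (subset_adjoin k _ (Or.inr ⟨j, rfl⟩)) ⟨z, hz⟩
      intro z hz
      exact h0 hz
    let f : M' →+* A := (algebraMap M' L).codRestrict A fun z => hMA z z.2
    have hLA : ∀ z : L, IsAlgebraic S z := by
      intro z
      have h1 : Algebra.IsAlgebraic M' M'⟮(t : L)⟯ := isAlgebraic_adjoin_simple halg.isIntegral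
      have h2 : IsAlgebraic M' z := by
        have hz : z ∈ M'⟮(t : L)⟯ := by rw [htop]; trivial
        exact (h1.isAlgebraic ⟨z, hz⟩).algebraMap (A := L)
      have h3 : IsAlgebraic A z :=
        h2.ringHom_of_comp_eq f (RingHom.id L) f.injective (by ext z; rfl)
      exact h3.restrictScalars S
    have h4 : Algebra.IsAlgebraic (Algebra.adjoin k T) L := alg_adjoin hLA
    have h5 := Algebra.IsAlgebraic.trdeg_le_cardinalMk k T
    rw [hn] at h5
    have h6 : Cardinal.mk (Set.range fun j : ι => (x j.1 : L)) ≤ ((n - 1 : ℕ) : Cardinal) := by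
      have h7 : Cardinal.lift.{0} (Cardinal.mk (Set.range fun j : ι => (x j.1 : L))) ≤
          Cardinal.lift (Cardinal.mk ι) := Cardinal.mk_range_le_lift
      have h8 : Fintype.card ι = n - 1 := by
        rw [Fintype.card_subtype_compl, Fintype.card_fin, Fintype.card_subtype_eq]
      rw [Cardinal.mk_fintype ι, h8] at h7
      simpa using h7
    have h6' : Cardinal.mk (Subtype.val '' s : Set L) ≤ ((d : ℕ) : Cardinal) := by
      have h7 : Cardinal.mk (Subtype.val '' s : Set L) ≤ Cardinal.mk s := Cardinal.mk_image_le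
      have h8 := hs.cardinalMk_eq_trdeg
      rw [hd] at h8
      exact h7.trans h8.le
    have h7 : Cardinal.mk T ≤ ((d + (n - 1) : ℕ) : Cardinal) := by
      refine (Cardinal.mk_union_le _ _).trans ?_
      push_cast
      exact add_le_add h6' h6
    have h8 : d + n ≤ d + (n - 1) := by exact_mod_cast h5.trans h7
    have h9 : 0 < n := i0.pos
    omega
  have hFF : IsFF M' L := by
    refine IsFF.of_finite htt ?_
    rw [htop]
    exact Module.Finite.of_surjective (Algebra.linearMap (⊤ : IntermediateField M' L) L)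
      fun z => ⟨⟨z, trivial⟩, rfl⟩
  refine ⟨M', essFiniteType_iff.2 (fg_sup (essFiniteType_iff.1 inferInstance)
    (fg_iSup fun j => essFiniteType_iff.1 (IsFF.ess))), ?_, htt, htop, hle⟩
  rw [← hn, ← trdeg_add_eq k M' (A := L), hFF.trdeg]

end

theorem main : S_NEGA.{u, v} := by
  intro k L _ _ _ _ _ d n M F _ _ hd hn hsup i0 BF ⟨t0, ht0⟩ huniq
  -- a generator with a pole at the boundary point
  obtain ⟨t, ht, htB⟩ : ∃ t : F i0, k⟮t⟯ = ⊤ ∧ ∀ p : Place k (F i0), BF p → p.ord t < 0 := by
    by_cases hex : ∃ p : Place k (F i0), BF p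
    · obtain ⟨p, hp⟩ := hex
      obtain ⟨t, ht, htw⟩ := exists_generator_pole ht0 p
      refine ⟨t, ht, fun p' hp' => ?_⟩
      rw [← huniq p p' hp hp']
      exact htw
    · push Not at hex
      exact ⟨t0, ht0, fun p hp => absurd hp (hex p)⟩
  obtain ⟨M', h1, h2, h3, h4, h5⟩ := factor' M F hd hn hsup i0 t ht
  let e1 : RatFunc M' ≃ₐ[M'] M'⟮(t : L)⟯ := RatFunc.algEquivOfTranscendental (t : L) h3
  let e2 : M'⟮(t : L)⟯ ≃ₐ[M'] L := (equivOfEq h4).trans topEquiv
  let e3 : RatFunc M' ≃ₐ[M'] L := e1.trans e2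
  have he3 : e3 RatFunc.X = (t : L) := by
    change e2 (e1 RatFunc.X) = (t : L)
    have : e1 RatFunc.X = AdjoinSimple.gen M' (t : L) := by
      rw [← RatFunc.algebraMap_X]
      change RatFunc.algEquivOfTranscendental (t : L) h3 (algebraMap M'[X] (RatFunc M') X) = _
      rw [RatFunc.algEquivOfTranscendental_algebraMap]
      apply Subtype.ext
      simp
    rw [this]
    rfl
  refine ⟨M', inferInstance, inferInstance,
    ((e3.symm.restrictScalars k : L ≃ₐ[k] RatFunc M') : L →ₐ[k] RatFunc M'), h1, h2, ?_⟩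
  intro w hw v e he hwv hB
  have hwv' : ∀ f : L, w.ord (e3.symm f) = e * v.ord f := fun f => hwv f
  have he0 : (e : ℤ) ≠ 0 := by exact_mod_cast he.ne'
  rcases hB with ⟨j, hj, z, hz, hvz⟩ | ⟨p, e', hover, hp⟩
  · -- the place is trivial on the other factors
    apply hvz
    have hz0 : z ≠ 0 := by
      rintro rfl
      exact hvz v.ord_zero
    have hzM : z ∈ M' := h5 j hj hz
    have h6 : w.ord (e3.symm z) = 0 := by
      have : e3.symm z = algebraMap M' (RatFunc M') ⟨z, hzM⟩ := e3.symm.commutes (⟨z, hzM⟩ : M')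
      rw [this]
      exact w.ord_const (fun h => hz0 (congrArg Subtype.val h))
    rw [hwv' z] at h6
    exact (mul_eq_zero.mp h6).resolve_left he0
  · have h7 := htB p hp
    have h8 := hover.2 t
    have h9 : v.ord (t : L) < 0 := by
      change v.ord (algebraMap (F i0) L t) < 0
      rw [h8]
      have : (0 : ℤ) < e' := by exact_mod_cast hover.1
      exact mul_neg_of_pos_of_neg this h7
    have h10 : w.ord RatFunc.X < 0 := by
      have := hwv' (t : L)
      rw [← he3, AlgEquiv.symm_apply_apply, he3] at this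
      rw [this]
      have : (0 : ℤ) < e := by exact_mod_cast he
      exact mul_neg_of_pos_of_neg this h9
    rcases hw with h | h
    · exact RatFunc.X_ne_zero h
    · omega

end Pool.Agent.W636.PG.NEGA
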